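import Mathlib
import Pool.Agent.H474R2.PG.Defs

set_option autoImplicit false

/-! # Rectangles without Gaussian primes: definitions (helper618) -/

namespace Pool.Agent.H618R2.GR

open Polynomial

/-- the polynomial `X ^ 2 + 1` -/
noncomputable def f : ℤ[X] := X ^ 2 + 1

/-- number of roots of `X ^ 2 + 1` modulo `p` -/
noncomputable abbrev rho (p : ℕ) : ℕ := Pool.Agent.H474R2.PG.rho f p

end Pool.Agent.H618R2.GR
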