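import Mathlib
import Pool.Agent.H474R2.PG.Defs
import Pool.Agent.H256R2.SC.V1

set_option autoImplicit false

/-! # Choice of a residue class (weighted version) -/

namespace Pool.Agent.H618R2.GR

open Polynomial

open Finset Classical in
lemma class_choice_aux {ι : Type} (Q : ℕ → ℤ → ι → Prop) (G : ℕ → ι → ℕ) (R : Finset ι)
    (S : Finset ℕ) : (∀ p ∈ S, p.Prime) →
    (∀ p ∈ S, ∀ z ∈ R, ((Finset.range p).filter (fun a : ℕ => Q p (a : ℤ) z)).card = G p z) →
    ∀ om : ι → ℝ, (∀ z ∈ R, 0 ≤ om z) →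
    ∃ a : ℕ → ℤ, (∑ z ∈ R.filter (fun z => ∀ p ∈ S, ¬ Q p (a p) z), om z) ≤
      ∑ z ∈ R, om z * ∏ p ∈ S, (1 - (G p z : ℝ) / (p : ℝ)) := by
  induction S using Finset.induction_on with
  | empty => exact fun _ _ om _ => ⟨fun _ => 0, by simp⟩
  | insert p S hpS ih =>
    intro hS hG om hom
    have hp : p.Prime := hS p (Finset.mem_insert_self p S)
    have hp0 : (0 : ℝ) < p := by exact_mod_cast hp.pos
    have hGp := hG p (Finset.mem_insert_self p S)
    have hGle : ∀ z ∈ R, (G p z : ℝ) ≤ p := by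
      intro z hz
      rw [← hGp z hz]
      exact_mod_cast (Finset.card_filter_le _ _).trans (by rw [Finset.card_range])
    have hfac : ∀ z ∈ R, 0 ≤ 1 - (G p z : ℝ) / (p : ℝ) := by
      intro z hz
      have h1 := hGle z hz
      have h2 : (G p z : ℝ) / (p : ℝ) ≤ 1 := (div_le_one hp0).2 h1
      linarith
    obtain ⟨a, ha⟩ := ih (fun q hq => hS q (Finset.mem_insert_of_mem hq))
      (fun q hq => hG q (Finset.mem_insert_of_mem hq))
      (fun z => om z * (1 - (G p z : ℝ) / (p : ℝ)))
      (fun z hz => mul_nonneg (hom z hz) (hfac z hz))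
    set T := R.filter (fun z => ∀ q ∈ S, ¬ Q q (a q) z) with hT
    have hTR : T ⊆ R := Finset.filter_subset _ _
    -- average over the classes mod p
    have hsum : ∑ b ∈ Finset.range p, (∑ z ∈ T, if ¬ Q p (b : ℤ) z then om z else 0) =
        ∑ z ∈ T, om z * ((p : ℝ) - G p z) := by
      rw [Finset.sum_comm]
      refine Finset.sum_congr rfl (fun z hz => ?_)
      have h3 := Finset.card_filter_add_card_filter_not (s := Finset.range p)
        (fun b : ℕ => Q p (b : ℤ) z)
      rw [hGp z (hTR hz), Finset.card_range] at h3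
      have h4 : (G p z : ℝ) + (((Finset.range p).filter
          (fun b : ℕ => ¬ Q p (b : ℤ) z)).card : ℝ) = p := by
        exact_mod_cast h3
      rw [← Finset.sum_filter, Finset.sum_const, nsmul_eq_mul]
      have h5 : (((Finset.range p).filter
          (fun b : ℕ => ¬ Q p (b : ℤ) z)).card : ℝ) = (p : ℝ) - G p z := by linarith
      rw [h5]
      ring
    have hne : (Finset.range p).Nonempty := Finset.nonempty_range_iff.2 hp.ne_zero
    obtain ⟨b, -, hb⟩ := Finset.exists_le_of_sum_le (s := Finset.range p)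
      (f := fun b : ℕ => ∑ z ∈ T, if ¬ Q p (b : ℤ) z then om z else 0)
      (g := fun _ => ∑ z ∈ T, om z * (1 - (G p z : ℝ) / (p : ℝ))) hne (by
        rw [hsum, Finset.sum_const, Finset.card_range, nsmul_eq_mul, Finset.mul_sum]
        apply le_of_eq
        refine Finset.sum_congr rfl (fun z _ => ?_)
        field_simp)
    refine ⟨Function.update a p (b : ℤ), ?_⟩
    have heq : R.filter (fun z => ∀ q ∈ insert p S,
        ¬ Q q (Function.update a p (b : ℤ) q) z) =
        T.filter (fun z => ¬ Q p (b : ℤ) z) := by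
      rw [hT, Finset.filter_filter]
      refine Finset.filter_congr (fun z _ => ?_)
      rw [Finset.forall_mem_insert, Function.update_self]
      constructor
      · rintro ⟨h1, h2⟩
        refine ⟨fun q hq => ?_, h1⟩
        have := h2 q hq
        rwa [Function.update_of_ne (by rintro rfl; exact hpS hq)] at this
      · rintro ⟨h1, h2⟩
        refine ⟨h2, fun q hq => ?_⟩
        rw [Function.update_of_ne (by rintro rfl; exact hpS hq)]
        exact h1 q hq
    rw [heq, Finset.sum_filter]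
    refine hb.trans (ha.trans (le_of_eq ?_))
    refine Finset.sum_congr rfl (fun z _ => ?_)
    rw [Finset.prod_insert hpS, mul_assoc]

open Finset Classical in
theorem class_choice {ι : Type} (Q : ℕ → ℤ → ι → Prop) (G : ℕ → ι → ℕ) (S : Finset ℕ)
    (hS : ∀ p ∈ S, p.Prime) (R : Finset ι)
    (hper : ∀ p ∈ S, ∀ a b : ℤ, (p : ℤ) ∣ a - b → ∀ z, (Q p a z ↔ Q p b z))
    (hG : ∀ p ∈ S, ∀ z ∈ R, ((Finset.range p).filter (fun a : ℕ => Q p (a : ℤ) z)).card = G p z) :
    ∃ r₀ : ℤ, ((R.filter (fun z => ∀ p ∈ S, ¬ Q p r₀ z)).card : ℝ) ≤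
      ∑ z ∈ R, ∏ p ∈ S, (1 - (G p z : ℝ) / (p : ℝ)) := by
  obtain ⟨a, ha⟩ := class_choice_aux Q G R S hS hG (fun _ => 1) (fun _ _ => zero_le_one)
  obtain ⟨r, hr⟩ := Pool.Agent.H256R2.SC.crt_int S (fun p => (p : ℤ)) (by
    intro i hi j hj hij
    exact (Nat.isCoprime_iff_coprime).2 ((Nat.coprime_primes (hS i hi) (hS j hj)).2 hij)) a
  refine ⟨r, ?_⟩
  have heq : R.filter (fun z => ∀ p ∈ S, ¬ Q p r z) =
      R.filter (fun z => ∀ p ∈ S, ¬ Q p (a p) z) := by
    refine Finset.filter_congr (fun z _ => ?_)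
    refine forall₂_congr (fun p hp => ?_)
    rw [hper p hp r (a p) (hr p hp) z]
  rw [heq]
  simpa using ha

end Pool.Agent.H618R2.GR
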