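import Mathlib
open Polynomial
namespace Pool.Agent.H618R2.GR
open Finset Classical in
/-- G3: no collisions -/
theorem no_coll (p : ℕ) (hp : p.Prime) (D : ℝ) (hD : 1 ≤ D) (hpD : 41 * D ^ 8 < (p : ℝ)) (a : ℤ)
    (j j' b b' : ℕ) (k k' : ℤ) (hj : 1 ≤ j) (hj' : 1 ≤ j') (hb : 1 ≤ b) (hb' : 1 ≤ b')
    (hjD : (j : ℝ) ≤ D) (hjD' : (j' : ℝ) ≤ D) (hbD : (b : ℝ) ≤ D) (hbD' : (b' : ℝ) ≤ D)
    (hkD : |(k : ℝ)| ≤ D) (hkD' : |(k' : ℝ)| ≤ D)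
    (hg : Nat.gcd (Nat.gcd j b) k.natAbs = 1) (hg' : Nat.gcd (Nat.gcd j' b') k'.natAbs = 1)
    (h1 : (p : ℤ) ∣ ((j : ℤ) * a + k) ^ 2 + (b : ℤ) ^ 2)
    (h2 : (p : ℤ) ∣ ((j' : ℤ) * a + k') ^ 2 + (b' : ℤ) ^ 2) :
    j = j' ∧ k = k' ∧ b = b' := by
  have hD0 : (0 : ℝ) ≤ D := by linarith
  obtain ⟨D1, hD1⟩ : ∃ D1 : ℤ, D1 = (j' : ℤ) * k - j * k' := ⟨_, rfl⟩
  obtain ⟨S, hS⟩ : ∃ S : ℤ, S = D1 ^ 2 + (j' : ℤ) ^ 2 * (b : ℤ) ^ 2 - (j : ℤ) ^ 2 * (b' : ℤ) ^ 2 := ⟨_, rfl⟩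
  have hdvd : (p : ℤ) ∣ S ^ 2 + 4 * (j : ℤ) ^ 2 * (b' : ℤ) ^ 2 * D1 ^ 2 := by
    obtain ⟨c1, h1⟩ := h1
    obtain ⟨c2, h2⟩ := h2
    have key : 2 * (j : ℤ) * ((j' : ℤ) * a + k') * D1 =
        (p : ℤ) * ((j' : ℤ) ^ 2 * c1 - (j : ℤ) ^ 2 * c2) - S := by
      rw [hS, hD1]
      linear_combination (j' : ℤ) ^ 2 * h1 - (j : ℤ) ^ 2 * h2
    refine ⟨4 * (j : ℤ) ^ 2 * c2 * D1 ^ 2 - p * ((j' : ℤ) ^ 2 * c1 - (j : ℤ) ^ 2 * c2) ^ 2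
      + 2 * ((j' : ℤ) ^ 2 * c1 - (j : ℤ) ^ 2 * c2) * S, ?_⟩
    linear_combination 4 * (j : ℤ) ^ 2 * D1 ^ 2 * h2 -
      (2 * (j : ℤ) * ((j' : ℤ) * a + k') * D1 +
        ((p : ℤ) * ((j' : ℤ) ^ 2 * c1 - (j : ℤ) ^ 2 * c2) - S)) * key
  have hj0 : (0 : ℝ) ≤ j := Nat.cast_nonneg _
  have hj0' : (0 : ℝ) ≤ j' := Nat.cast_nonneg _
  have hb0 : (0 : ℝ) ≤ b := Nat.cast_nonneg _
  have hb0' : (0 : ℝ) ≤ b' := Nat.cast_nonneg _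
  have hD1b : |(D1 : ℝ)| ≤ 2 * D ^ 2 := by
    rw [hD1]
    push_cast
    calc |(j' : ℝ) * k - j * k'| ≤ |(j' : ℝ) * k| + |(j : ℝ) * k'| := abs_sub _ _
      _ = (j' : ℝ) * |(k : ℝ)| + (j : ℝ) * |(k' : ℝ)| := by
        rw [abs_mul, abs_mul, abs_of_nonneg hj0, abs_of_nonneg hj0']
      _ ≤ D * D + D * D := by
        gcongr
      _ = 2 * D ^ 2 := by ring
  have hD1s : (D1 : ℝ) ^ 2 ≤ 4 * D ^ 4 := by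
    rw [← sq_abs]
    calc |(D1 : ℝ)| ^ 2 ≤ (2 * D ^ 2) ^ 2 := by gcongr
      _ = 4 * D ^ 4 := by ring
  have hq1 : (j' : ℝ) ^ 2 * (b : ℝ) ^ 2 ≤ D ^ 4 := by
    calc (j' : ℝ) ^ 2 * (b : ℝ) ^ 2 ≤ D ^ 2 * D ^ 2 := by gcongr
      _ = D ^ 4 := by ring
  have hq2 : (j : ℝ) ^ 2 * (b' : ℝ) ^ 2 ≤ D ^ 4 := by
    calc (j : ℝ) ^ 2 * (b' : ℝ) ^ 2 ≤ D ^ 2 * D ^ 2 := by gcongr
      _ = D ^ 4 := by ring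
  have hSr : (S : ℝ) = (D1 : ℝ) ^ 2 + (j' : ℝ) ^ 2 * (b : ℝ) ^ 2 - (j : ℝ) ^ 2 * (b' : ℝ) ^ 2 := by
    rw [hS]; push_cast; ring
  have hD4 : 0 ≤ D ^ 4 := by positivity
  have hp1 : 0 ≤ (j' : ℝ) ^ 2 * (b : ℝ) ^ 2 := by positivity
  have hp2 : 0 ≤ (j : ℝ) ^ 2 * (b' : ℝ) ^ 2 := by positivity
  have hp3 : 0 ≤ (D1 : ℝ) ^ 2 := by positivity
  have hSb : |(S : ℝ)| ≤ 5 * D ^ 4 := by
    rw [hSr, abs_le]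
    constructor <;> linarith
  have hSs : (S : ℝ) ^ 2 ≤ 25 * D ^ 8 := by
    rw [← sq_abs]
    calc |(S : ℝ)| ^ 2 ≤ (5 * D ^ 4) ^ 2 := by gcongr
      _ = 25 * D ^ 8 := by ring
  have hq3 : (j : ℝ) ^ 2 * (b' : ℝ) ^ 2 * (D1 : ℝ) ^ 2 ≤ 4 * D ^ 8 := by
    calc (j : ℝ) ^ 2 * (b' : ℝ) ^ 2 * (D1 : ℝ) ^ 2 ≤ D ^ 4 * (4 * D ^ 4) := by gcongr
      _ = 4 * D ^ 8 := by ring
  have hlt : S ^ 2 + 4 * (j : ℤ) ^ 2 * (b' : ℤ) ^ 2 * D1 ^ 2 < p := by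
    have : ((S ^ 2 + 4 * (j : ℤ) ^ 2 * (b' : ℤ) ^ 2 * D1 ^ 2 : ℤ) : ℝ) < ((p : ℤ) : ℝ) := by
      push_cast
      nlinarith [hSs, hq3, hpD]
    exact_mod_cast this
  have hnn : 0 ≤ S ^ 2 + 4 * (j : ℤ) ^ 2 * (b' : ℤ) ^ 2 * D1 ^ 2 := by positivity
  have hzero := Int.eq_zero_of_dvd_of_nonneg_of_lt hnn hlt hdvd
  have hjz : (0 : ℤ) < j := by exact_mod_cast hj
  have hjz' : (0 : ℤ) < j' := by exact_mod_cast hj'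
  have hbz : (0 : ℤ) < b := by exact_mod_cast hb
  have hbz' : (0 : ℤ) < b' := by exact_mod_cast hb'
  have hS0 : S = 0 := by
    have h3 : 0 ≤ 4 * (j : ℤ) ^ 2 * (b' : ℤ) ^ 2 * D1 ^ 2 := by positivity
    have h4 : S ^ 2 ≤ 0 := by linarith
    have h5 : S ^ 2 = 0 := le_antisymm h4 (sq_nonneg _)
    exact pow_eq_zero_iff (two_ne_zero) |>.mp h5
  have hD10 : D1 = 0 := by
    rw [hS0] at hzero
    have h3 : 4 * (j : ℤ) ^ 2 * (b' : ℤ) ^ 2 ≠ 0 := by positivity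
    have h4 : 4 * (j : ℤ) ^ 2 * (b' : ℤ) ^ 2 * D1 ^ 2 = 0 := by linarith
    have h5 := (mul_eq_zero.mp h4).resolve_left h3
    exact pow_eq_zero_iff (two_ne_zero) |>.mp h5
  have hk : (j' : ℤ) * k = j * k' := by
    rw [hD10] at hD1; linarith
  have hbb : (j' : ℤ) * b = j * b' := by
    rw [hS0, hD10] at hS
    have h3 : ((j' : ℤ) * b) ^ 2 = ((j : ℤ) * b') ^ 2 := by
      rw [mul_pow, mul_pow]; linarith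
    exact (pow_left_inj₀ (by positivity) (by positivity) two_ne_zero).mp h3
  have hbn : j' * b = j * b' := by exact_mod_cast hbb
  have hkn : j' * k.natAbs = j * k'.natAbs := by
    have h3 := congrArg Int.natAbs hk
    simpa [Int.natAbs_mul] using h3
  have hjj : j' = j := by
    have e1 : Nat.gcd (Nat.gcd (j' * j) (j' * b)) (j' * k.natAbs) = j' := by
      rw [Nat.gcd_mul_left, Nat.gcd_mul_left, hg, mul_one]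
    have e2 : Nat.gcd (Nat.gcd (j * j') (j * b')) (j * k'.natAbs) = j := by
      rw [Nat.gcd_mul_left, Nat.gcd_mul_left, hg', mul_one]
    rw [← e1, hbn, hkn, mul_comm j' j, e2]
  subst hjj
  refine ⟨rfl, ?_, ?_⟩
  · exact mul_left_cancel₀ hjz.ne' hk
  · exact Nat.eq_of_mul_eq_mul_left hj hbn
end Pool.Agent.H618R2.GR
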