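import Mathlib
import Pool.Agent.H474R2.PG.Defs

set_option autoImplicit false

open Polynomial

namespace Pool.Agent.H618R2.GR

open Finset Classical in
theorem G4_exp {x : ℝ} (h0 : 0 ≤ x) (h1 : x ≤ 1) :
    Real.exp x ≤ (1 + x) * Real.exp (x ^ 2) := by
  have h2 := Real.abs_exp_sub_one_sub_id_le (x := x) (by rw [abs_of_nonneg h0]; exact h1)
  have h3 := (abs_le.1 h2).2
  have h4 := Real.add_one_le_exp (x ^ 2)
  have h5 : (1 + x) * (x ^ 2 + 1) ≤ (1 + x) * Real.exp (x ^ 2) :=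
    mul_le_mul_of_nonneg_left h4 (by linarith)
  nlinarith [mul_nonneg h0 (sq_nonneg x)]

open Finset in
theorem G4_sq (b : ℕ) (hb : 1 ≤ b) : ∑ p ∈ b.primeFactors, (1 / (p : ℝ)) ^ 2 ≤ 1 := by
  have h1 := sum_Ioc_inv_sq_le_sub (α := ℝ) (k := 1) (n := b) one_ne_zero hb
  have h2 : ∑ p ∈ b.primeFactors, (1 / (p : ℝ)) ^ 2 ≤ ∑ i ∈ Ioc 1 b, ((i : ℝ) ^ 2)⁻¹ := by
    have h3 : ∀ p ∈ b.primeFactors, (1 / (p : ℝ)) ^ 2 = ((p : ℝ) ^ 2)⁻¹ := by
      intro p _
      rw [one_div, inv_pow]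
    rw [sum_congr rfl h3]
    apply sum_le_sum_of_subset_of_nonneg
    · intro p hp
      rw [mem_Ioc]
      exact ⟨(Nat.prime_of_mem_primeFactors hp).one_lt,
        Nat.le_of_dvd hb (Nat.dvd_of_mem_primeFactors hp)⟩
    · intro i _ _
      positivity
  have h4 : (0 : ℝ) ≤ (b : ℝ)⁻¹ := by positivity
  simp only [Nat.cast_one, inv_one] at h1
  linarith

open Finset in
theorem G4_prod (b : ℕ) (hb : 1 ≤ b) :
    ∏ p ∈ b.primeFactors, (1 + 1 / (p : ℝ)) ≤ ∑ d ∈ b.divisors, 1 / (d : ℝ) := by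
  classical
  rw [prod_one_add]
  have h1 : ∀ t ∈ b.primeFactors.powerset, ∏ p ∈ t, (1 / (p : ℝ)) = 1 / ((∏ p ∈ t, p : ℕ) : ℝ) := by
    intro t _
    rw [prod_div_distrib, prod_const_one, Nat.cast_prod]
  rw [sum_congr rfl h1]
  have hinj : Set.InjOn (fun t : Finset ℕ => ∏ p ∈ t, p) (b.primeFactors.powerset : Set (Finset ℕ)) := by
    intro t ht u hu h
    have ht' : ∀ p ∈ t, Nat.Prime p := fun p hp =>
      Nat.prime_of_mem_primeFactors (mem_powerset.1 (mem_coe.1 ht) hp)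
    have hu' : ∀ p ∈ u, Nat.Prime p := fun p hp =>
      Nat.prime_of_mem_primeFactors (mem_powerset.1 (mem_coe.1 hu) hp)
    have h2 := congrArg Nat.primeFactors h
    simp only at h2
    rwa [Nat.primeFactors_prod ht', Nat.primeFactors_prod hu'] at h2
  rw [← sum_image (f := fun d : ℕ => 1 / (d : ℝ)) hinj]
  apply sum_le_sum_of_subset_of_nonneg
  · intro d hd
    obtain ⟨t, ht, rfl⟩ := mem_image.1 hd
    rw [Nat.mem_divisors]
    exact ⟨(prod_dvd_prod_of_subset _ _ _ (mem_powerset.1 ht)).trans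
      (Nat.prod_primeFactors_dvd b), by omega⟩
  · intro i _ _
    positivity

open Finset in
theorem G4_zeta (K : ℕ) : ∑ d ∈ Icc 1 K, 1 / ((d : ℝ) * √(d : ℝ)) ≤ 3 := by
  rcases Nat.eq_zero_or_pos K with h | h
  · subst h; simp
  have key : ∀ n : ℕ, ∑ d ∈ Icc 1 (n + 1), 1 / ((d : ℝ) * √(d : ℝ)) ≤ 3 - 2 / √((n : ℝ) + 1) := by
    intro n
    induction n with
    | zero => norm_num
    | succ n ih =>
      rw [sum_Icc_succ_top (by omega)]
      push_cast
      set a := √((n : ℝ) + 1) with ha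
      set c := √((n : ℝ) + 1 + 1) with hc
      have ha2 : a ^ 2 = (n : ℝ) + 1 := Real.sq_sqrt (by positivity)
      have hc2 : c ^ 2 = (n : ℝ) + 1 + 1 := Real.sq_sqrt (by positivity)
      have ha0 : 0 < a := Real.sqrt_pos.2 (by positivity)
      have hc0 : 0 < c := Real.sqrt_pos.2 (by positivity)
      have hac : a ≤ c := Real.sqrt_le_sqrt (by linarith)
      have h1 : 1 / (((n : ℝ) + 1 + 1) * c) ≤ 2 / a - 2 / c := by
        rw [← hc2, div_sub_div _ _ ha0.ne' hc0.ne', div_le_div_iff₀ (by positivity) (by positivity)]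
        have h2 : (c - a) * (c + a) = 1 := by nlinarith
        have h3 : 0 ≤ c - a := by linarith
        have h4 : a * c ≤ c ^ 2 * c * ((c - a) * 2) := by
          have h5 : a * c * ((c - a) * (c + a)) ≤ c ^ 2 * c * ((c - a) * 2) := by
            have h6 : a * c * (c + a) ≤ c ^ 2 * c * 2 := by nlinarith [mul_pos ha0 hc0]
            nlinarith [mul_le_mul_of_nonneg_left h6 h3]
          rwa [h2, mul_one] at h5
        nlinarith
      linarith
  obtain ⟨n, rfl⟩ : ∃ n, K = n + 1 := ⟨K - 1, by omega⟩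
  have h1 := key n
  have h2 : 0 ≤ 2 / √((n : ℝ) + 1) := by positivity
  linarith

open Finset in
theorem G4_cs (b : ℕ) (_hb : 1 ≤ b) :
    (∑ d ∈ b.divisors, 1 / (d : ℝ)) ^ 2 ≤ 3 * ∑ d ∈ b.divisors, 1 / √(d : ℝ) := by
  have h1 := Finset.sum_sq_le_sum_mul_sum_of_sq_le_mul b.divisors
    (r := fun d : ℕ => 1 / (d : ℝ)) (f := fun d : ℕ => 1 / ((d : ℝ) * √(d : ℝ)))
    (g := fun d : ℕ => 1 / √(d : ℝ)) (fun i _ => by positivity) (fun i _ => by positivity)
    (by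
      intro d hd
      have hd0 : (0 : ℝ) < d := by exact_mod_cast Nat.pos_of_mem_divisors hd
      have h2 : √(d : ℝ) * √(d : ℝ) = d := Real.mul_self_sqrt hd0.le
      apply le_of_eq
      rw [div_mul_div_comm, mul_assoc, h2]
      ring)
  have h2 : ∑ d ∈ b.divisors, 1 / ((d : ℝ) * √(d : ℝ)) ≤ 3 := by
    refine le_trans ?_ (G4_zeta b)
    apply sum_le_sum_of_subset_of_nonneg
    · intro d hd
      rw [mem_Icc]
      exact ⟨Nat.pos_of_mem_divisors hd, Nat.divisor_le hd⟩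
    · intro i _ _
      positivity
  refine h1.trans (mul_le_mul_of_nonneg_right h2 (sum_nonneg fun i _ => by positivity))

open Finset in
theorem G4_swap (K : ℕ) :
    ∑ b ∈ Icc 1 K, ∑ d ∈ b.divisors, 1 / √(d : ℝ) ≤ 3 * K := by
  have h1 : ∀ b ∈ Icc 1 K, ∑ d ∈ b.divisors, 1 / √(d : ℝ)
      = ∑ d ∈ Icc 1 K, if d ∣ b then 1 / √(d : ℝ) else 0 := by
    intro b hb
    rw [mem_Icc] at hb
    rw [← sum_filter]
    apply sum_congr _ fun _ _ => rfl
    ext d
    rw [Nat.mem_divisors, mem_filter, mem_Icc]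
    constructor
    · rintro ⟨h1, h2⟩
      exact ⟨⟨Nat.pos_of_dvd_of_pos h1 (by omega), (Nat.le_of_dvd (by omega) h1).trans hb.2⟩, h1⟩
    · rintro ⟨_, h1⟩
      exact ⟨h1, by omega⟩
  rw [sum_congr rfl h1, sum_comm]
  have h2 : ∀ d ∈ Icc 1 K, ∑ b ∈ Icc 1 K, (if d ∣ b then 1 / √(d : ℝ) else 0)
      ≤ K * (1 / ((d : ℝ) * √(d : ℝ))) := by
    intro d hd
    rw [mem_Icc] at hd
    have hd0 : (0 : ℝ) < d := by exact_mod_cast hd.1
    rw [← sum_filter, sum_const, nsmul_eq_mul]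
    have h3 : (#{b ∈ Icc 1 K | d ∣ b}) = K / d := by
      rw [← Nat.Ioc_filter_dvd_card_eq_div]
      rfl
    have h4 : ((#{b ∈ Icc 1 K | d ∣ b} : ℕ) : ℝ) ≤ K / d := by
      rw [h3]
      exact Nat.cast_div_le
    have h5 : (0 : ℝ) ≤ 1 / √(d : ℝ) := by positivity
    calc ((#{b ∈ Icc 1 K | d ∣ b} : ℕ) : ℝ) * (1 / √(d : ℝ)) ≤ (K / d) * (1 / √(d : ℝ)) :=
          mul_le_mul_of_nonneg_right h4 h5
      _ = K * (1 / ((d : ℝ) * √(d : ℝ))) := by
          rw [div_mul_div_comm, mul_one, mul_one_div]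
  refine (sum_le_sum h2).trans ?_
  rw [← mul_sum]
  have h6 := G4_zeta K
  have h7 : (0 : ℝ) ≤ K := by positivity
  nlinarith

open Finset Classical in
/-- G4: an average over `b` -/
theorem avg (K : ℕ) :
    ∑ b ∈ Finset.Icc 1 K, Real.exp (2 * ∑ p ∈ b.primeFactors, 1 / (p : ℝ)) ≤ 100 * K := by
  have h1 : ∀ b ∈ Icc 1 K, Real.exp (2 * ∑ p ∈ b.primeFactors, 1 / (p : ℝ))
      ≤ Real.exp 2 * (3 * ∑ d ∈ b.divisors, 1 / √(d : ℝ)) := by
    intro b hb
    have hb1 := (mem_Icc.1 hb).1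
    set x : ℝ := ∑ p ∈ b.primeFactors, 1 / (p : ℝ) with hx
    have h2 : Real.exp x ≤ (∑ d ∈ b.divisors, 1 / (d : ℝ)) * Real.exp 1 := by
      have h3 : Real.exp x ≤ ∏ p ∈ b.primeFactors, ((1 + 1 / (p : ℝ)) * Real.exp ((1 / (p : ℝ)) ^ 2)) := by
        rw [hx, Real.exp_sum]
        apply prod_le_prod
        · intro i _
          exact (Real.exp_pos _).le
        · intro p hp
          have hp1 : (1 : ℝ) ≤ p := by
            exact_mod_cast (Nat.prime_of_mem_primeFactors hp).one_lt.le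
          exact G4_exp (by positivity) (by rw [div_le_one (by linarith)]; exact hp1)
      rw [prod_mul_distrib, ← Real.exp_sum] at h3
      refine h3.trans ?_
      apply mul_le_mul (G4_prod b hb1) (Real.exp_le_exp.2 (G4_sq b hb1)) (Real.exp_pos _).le
      exact sum_nonneg fun i _ => by positivity
    have h4 : 0 ≤ ∑ d ∈ b.divisors, 1 / (d : ℝ) := sum_nonneg fun i _ => by positivity
    have h5 : Real.exp (2 * x) = Real.exp x * Real.exp x := by
      rw [← Real.exp_add]; ring_nf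
    have h6 : Real.exp 2 = Real.exp 1 * Real.exp 1 := by
      rw [← Real.exp_add]; norm_num
    rw [h5, h6]
    have h7 := G4_cs b hb1
    have h8 : Real.exp x * Real.exp x ≤ ((∑ d ∈ b.divisors, 1 / (d : ℝ)) * Real.exp 1)
        * ((∑ d ∈ b.divisors, 1 / (d : ℝ)) * Real.exp 1) :=
      mul_le_mul h2 h2 (Real.exp_pos _).le (mul_nonneg h4 (Real.exp_pos _).le)
    refine h8.trans ?_
    have h9 : ((∑ d ∈ b.divisors, 1 / (d : ℝ)) * Real.exp 1)
        * ((∑ d ∈ b.divisors, 1 / (d : ℝ)) * Real.exp 1)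
        = Real.exp 1 * Real.exp 1 * (∑ d ∈ b.divisors, 1 / (d : ℝ)) ^ 2 := by ring
    rw [h9]
    exact mul_le_mul_of_nonneg_left h7 (mul_nonneg (Real.exp_pos _).le (Real.exp_pos _).le)
  refine (sum_le_sum h1).trans ?_
  rw [← mul_sum, ← mul_sum]
  have h2 := G4_swap K
  have h3 : Real.exp 2 ≤ 7.4 := by
    have h4 : Real.exp 2 = Real.exp 1 * Real.exp 1 := by
      rw [← Real.exp_add]; norm_num
    have h5 := Real.exp_one_lt_d9
    have h6 := Real.exp_pos 1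
    rw [h4]
    nlinarith
  have h7 : (0 : ℝ) ≤ K := by positivity
  have h8 : Real.exp 2 * (3 * ∑ b ∈ Icc 1 K, ∑ d ∈ b.divisors, 1 / √(d : ℝ))
      ≤ 7.4 * (3 * (3 * K)) := by
    apply mul_le_mul h3 (by linarith) _ (by norm_num)
    apply mul_nonneg (by norm_num)
    exact sum_nonneg fun b _ => sum_nonneg fun d _ => by positivity
  linarith

end Pool.Agent.H618R2.GR
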