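import Pool.Agent.H618R2.GR.Defs

set_option autoImplicit false

open Polynomial
namespace Pool.Agent.H618R2.GR

lemma G5_card_range_zmod (p : ℕ) [NeZero p] (Q : ZMod p → Prop) [DecidablePred Q] :
    ((Finset.range p).filter (fun a : ℕ => Q (a : ZMod p))).card =
      ((Finset.univ : Finset (ZMod p)).filter Q).card := by
  refine Finset.card_bij (fun a _ => (a : ZMod p)) ?_ ?_ ?_
  · intro a ha
    rw [Finset.mem_filter] at ha
    exact Finset.mem_filter.2 ⟨Finset.mem_univ _, ha.2⟩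
  · intro a ha b hb h
    rw [Finset.mem_filter, Finset.mem_range] at ha hb
    have h1 := congrArg ZMod.val h
    rwa [ZMod.val_natCast_of_lt ha.1, ZMod.val_natCast_of_lt hb.1] at h1
  · intro b hb
    rw [Finset.mem_filter] at hb
    refine ⟨b.val, Finset.mem_filter.2 ⟨Finset.mem_range.2 (ZMod.val_lt b), ?_⟩, ?_⟩
    · rw [ZMod.natCast_zmod_val]; exact hb.2
    · rw [ZMod.natCast_zmod_val]

open Finset Classical

/-- G5: number of solutions of `(j a + k) ^ 2 + b ^ 2 = 0` modulo `p` -/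
theorem roots (p : ℕ) (hp : p.Prime) (j b : ℕ) (k : ℤ) (hj : ¬ p ∣ j) (hb : ¬ p ∣ b) :
    ((Finset.range p).filter
      (fun a : ℕ => (p : ℤ) ∣ ((j : ℤ) * (a : ℤ) + k) ^ 2 + (b : ℤ) ^ 2)).card = rho p := by
  have : NeZero p := ⟨hp.ne_zero⟩
  have : Fact p.Prime := ⟨hp⟩
  have hj' : (j : ZMod p) ≠ 0 := by
    rw [Ne, ZMod.natCast_eq_zero_iff]
    exact hj
  have hb' : (b : ZMod p) ≠ 0 := by
    rw [Ne, ZMod.natCast_eq_zero_iff]
    exact hb
  have hR : rho p = ((Finset.univ : Finset (ZMod p)).filter (fun x => x ^ 2 + 1 = 0)).card := by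
    rw [← G5_card_range_zmod p (fun x => x ^ 2 + 1 = 0)]
    show Pool.Agent.H474R2.PG.rho f p = _
    unfold Pool.Agent.H474R2.PG.rho
    congr 1
    ext a
    simp only [Finset.mem_filter, Finset.mem_range]
    refine and_congr_right (fun _ => ?_)
    rw [f, ← ZMod.intCast_zmod_eq_zero_iff_dvd]
    simp
  have hL : ((Finset.range p).filter
      (fun a : ℕ => (p : ℤ) ∣ ((j : ℤ) * (a : ℤ) + k) ^ 2 + (b : ℤ) ^ 2)).card =
      ((Finset.univ : Finset (ZMod p)).filter
        (fun x => ((j : ZMod p) * x + (k : ZMod p)) ^ 2 + (b : ZMod p) ^ 2 = 0)).card := by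
    rw [← G5_card_range_zmod p
      (fun x => ((j : ZMod p) * x + (k : ZMod p)) ^ 2 + (b : ZMod p) ^ 2 = 0)]
    congr 1
    ext a
    simp only [Finset.mem_filter, Finset.mem_range]
    refine and_congr_right (fun _ => ?_)
    rw [← ZMod.intCast_zmod_eq_zero_iff_dvd]
    simp
  rw [hR, hL]
  refine Finset.card_bij (fun x _ => ((j : ZMod p) * x + (k : ZMod p)) / (b : ZMod p)) ?_ ?_ ?_
  · intro x hx
    rw [Finset.mem_filter] at hx ⊢
    refine ⟨Finset.mem_univ _, ?_⟩
    rw [div_pow, div_add_one (pow_ne_zero 2 hb'), hx.2, zero_div]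
  · intro x _ y _ h
    have h1 : (j : ZMod p) * x + (k : ZMod p) = (j : ZMod p) * y + (k : ZMod p) := by
      have := congrArg (fun z => z * (b : ZMod p)) h
      simpa [div_mul_cancel₀ _ hb'] using this
    exact mul_left_cancel₀ hj' (add_right_cancel h1)
  · intro y hy
    rw [Finset.mem_filter] at hy
    refine ⟨(y * (b : ZMod p) - (k : ZMod p)) / (j : ZMod p), Finset.mem_filter.2 ⟨Finset.mem_univ _, ?_⟩, ?_⟩
    · rw [mul_div_cancel₀ _ hj', sub_add_cancel, mul_pow, ← add_one_mul, hy.2, zero_mul]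
    · rw [mul_div_cancel₀ _ hj', sub_add_cancel, mul_div_cancel_right₀ _ hb']

end Pool.Agent.H618R2.GR
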