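import Mathlib
import Pool.Agent.H618R2.GR.Defs

set_option autoImplicit false

/-! # G6: the polynomial `X ^ 2 + 1` (helper577) -/

namespace Pool.Agent.H618R2.GR

open Polynomial
open Finset Classical

/-- G6 -/
theorem rho_le_two (p : ℕ) (hp : p.Prime) : rho p ≤ 2 := by
  have : Fact p.Prime := ⟨hp⟩
  have hg : (X ^ 2 + C 1 : (ZMod p)[X]).natDegree = 2 := natDegree_X_pow_add_C
  have hg0 : (X ^ 2 + C 1 : (ZMod p)[X]) ≠ 0 := (monic_X_pow_add_C (1 : ZMod p) two_ne_zero).ne_zero
  unfold rho Pool.Agent.H474R2.PG.rho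
  have h1 : ((Finset.range p).filter (fun a : ℕ => (p : ℤ) ∣ f.eval (a : ℤ))).card ≤
      ((X ^ 2 + C 1 : (ZMod p)[X]).roots.toFinset).card := by
    refine Finset.card_le_card_of_injOn (fun a : ℕ => (a : ZMod p)) ?_ ?_
    · intro a ha
      have ha' := (Finset.mem_filter.1 (Finset.mem_coe.1 ha)).2
      rw [Finset.mem_coe, Multiset.mem_toFinset, mem_roots hg0]
      have h2 : ((f.eval (a : ℤ) : ℤ) : ZMod p) = 0 := (ZMod.intCast_zmod_eq_zero_iff_dvd _ _).2 ha'
      unfold f at h2
      simp only [eval_add, eval_pow, eval_X, eval_one] at h2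
      push_cast at h2
      rw [IsRoot.def]
      simp only [eval_add, eval_pow, eval_X, eval_C]
      exact h2
    · intro a ha b hb hab
      have ha' := Finset.mem_range.1 (Finset.mem_filter.1 (Finset.mem_coe.1 ha)).1
      have hb' := Finset.mem_range.1 (Finset.mem_filter.1 (Finset.mem_coe.1 hb)).1
      have h3 := (ZMod.natCast_eq_natCast_iff' a b p).1 hab
      rwa [Nat.mod_eq_of_lt ha', Nat.mod_eq_of_lt hb'] at h3
  refine h1.trans ((Multiset.toFinset_card_le _).trans ((card_roots' _).trans ?_))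
  rw [hg]

/-- G6 -/
theorem f_irreducible : Irreducible f := by
  have h1 : cyclotomic 4 ℤ = f := by
    have h2 := cyclotomic_prime_pow_eq_geom_sum (R := ℤ) (n := 1) Nat.prime_two
    rw [show (4 : ℕ) = 2 ^ (1 + 1) by norm_num, h2, Finset.sum_range_succ, Finset.sum_range_one]
    unfold f
    ring
  rw [← h1]
  exact cyclotomic.irreducible (by norm_num)

/-- G6 -/
theorem f_natDegree : f.natDegree = 2 := by
  have h : f = X ^ 2 + C 1 := by simp [f]
  rw [h]
  exact natDegree_X_pow_add_C

end Pool.Agent.H618R2.GR
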