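import Mathlib
import Pool.Agent.H618R2.GR.Defs

set_option autoImplicit false

namespace Pool.Agent.H618R2.GR

open Finset Classical

/-- G7: the product over the small primes (helper318) -/
theorem weight (hr2 : ∀ p : ℕ, p.Prime → rho p ≤ 2) (w : ℝ) (j b : ℕ) (hj : 1 ≤ j) (hb : 1 ≤ b) :
    ∏ p ∈ Pool.Agent.H474R2.PG.PR w,
        (1 - ((if p ∣ j ∨ p ∣ b then 0 else rho p : ℕ) : ℝ) / (p : ℝ)) ≤
      Real.exp (-(Pool.Agent.H474R2.PG.Sg rho w)) *
        (Real.exp (2 * ∑ p ∈ j.primeFactors, 1 / (p : ℝ)) *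
          Real.exp (2 * ∑ p ∈ b.primeFactors, 1 / (p : ℝ))) := by
  rw [← Real.exp_add, ← Real.exp_add]
  have hprime : ∀ p ∈ Pool.Agent.H474R2.PG.PR w, p.Prime := fun p hp => by
    unfold Pool.Agent.H474R2.PG.PR at hp
    exact (mem_filter.1 hp).2
  have h1 : ∀ p ∈ Pool.Agent.H474R2.PG.PR w,
      (1 - ((if p ∣ j ∨ p ∣ b then 0 else rho p : ℕ) : ℝ) / (p : ℝ)) ≤
        Real.exp (-((if p ∣ j ∨ p ∣ b then 0 else rho p : ℕ) : ℝ) / (p : ℝ)) := fun p _ => by
    have := Real.add_one_le_exp (-((if p ∣ j ∨ p ∣ b then 0 else rho p : ℕ) : ℝ) / (p : ℝ))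
    rw [neg_div] at this ⊢
    linarith
  have h0 : ∀ p ∈ Pool.Agent.H474R2.PG.PR w,
      0 ≤ (1 - ((if p ∣ j ∨ p ∣ b then 0 else rho p : ℕ) : ℝ) / (p : ℝ)) := fun p hp => by
    have hpp := hprime p hp
    have hp2 : (2 : ℝ) ≤ p := by exact_mod_cast hpp.two_le
    have h2 : ((if p ∣ j ∨ p ∣ b then 0 else rho p : ℕ) : ℝ) ≤ 2 := by
      have : (if p ∣ j ∨ p ∣ b then 0 else rho p : ℕ) ≤ 2 := by
        split_ifs
        · omega
        · exact hr2 p hpp
      exact_mod_cast this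
    rw [sub_nonneg, div_le_one (by linarith)]
    linarith
  refine (prod_le_prod h0 h1).trans ?_
  rw [← Real.exp_sum, Real.exp_le_exp]
  have h3 : ∀ p ∈ Pool.Agent.H474R2.PG.PR w,
      -((if p ∣ j ∨ p ∣ b then 0 else rho p : ℕ) : ℝ) / (p : ℝ) ≤
        -((rho p : ℝ) / p) + ((if p ∣ j then 2 / (p : ℝ) else 0) +
          (if p ∣ b then 2 / (p : ℝ) else 0)) := fun p hp => by
    have hpp := hprime p hp
    have hp0 : (0 : ℝ) < p := by exact_mod_cast hpp.pos
    have h2 : (rho p : ℝ) / p ≤ 2 / p := by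
      apply div_le_div_of_nonneg_right _ hp0.le
      exact_mod_cast hr2 p hpp
    have h2' : (0 : ℝ) ≤ 2 / p := by positivity
    by_cases hj' : p ∣ j
    · by_cases hb' : p ∣ b
      · simp only [hj', hb', or_self, if_true, Nat.cast_zero, neg_zero, zero_div]
        linarith
      · simp only [hj', hb', true_or, if_true, if_false, Nat.cast_zero, neg_zero, zero_div]
        linarith
    · by_cases hb' : p ∣ b
      · simp only [hj', hb', or_true, if_true, if_false, Nat.cast_zero, neg_zero, zero_div]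
        linarith
      · simp only [hj', hb', or_self, if_false]
        rw [neg_div]
        linarith
  refine (sum_le_sum h3).trans ?_
  rw [sum_add_distrib, sum_add_distrib, sum_neg_distrib]
  have h4 : ∀ k : ℕ, 1 ≤ k → ∑ p ∈ Pool.Agent.H474R2.PG.PR w, (if p ∣ k then 2 / (p : ℝ) else 0) ≤
      2 * ∑ p ∈ k.primeFactors, 1 / (p : ℝ) := fun k hk => by
    rw [← sum_filter, mul_sum]
    have e : ∀ p : ℕ, 2 * (1 / (p : ℝ)) = 2 / (p : ℝ) := fun p => by ring
    simp only [e]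
    refine sum_le_sum_of_subset_of_nonneg (fun p hp => ?_) fun p _ _ => by positivity
    rw [mem_filter] at hp
    rw [Nat.mem_primeFactors]
    exact ⟨hprime p hp.1, hp.2, by omega⟩
  have h5 := h4 j hj
  have h6 := h4 b hb
  have h7 : Pool.Agent.H474R2.PG.Sg rho w = ∑ p ∈ Pool.Agent.H474R2.PG.PR w, (rho p : ℝ) / p := rfl
  rw [h7]
  linarith

end Pool.Agent.H618R2.GR
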