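import Pool.Agent.H474R2.PG.Final
import Pool.Agent.H618R2.GR.G1
import Pool.Agent.H618R2.GR.G2
import Pool.Agent.H618R2.GR.G3
import Pool.Agent.H618R2.GR.G4
import Pool.Agent.H618R2.GR.G5
import Pool.Agent.H618R2.GR.G6
import Pool.Agent.H618R2.GR.G7

set_option autoImplicit false
set_option linter.unusedVariables false

/-! # Rectangles without Gaussian primes at the multiples of an integer (helper618) -/

namespace Pool.Agent.H618R2.GR

open Polynomial Finset Filter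
open Pool.Agent.H474R2.PG (PR Sg WW WW_pos WW_le PR_prime PR_le PR_not_dvd err_le covering_poly
  mertens_lower rough_lower Sg_close)
open Classical

/-- the condition used for the small primes -/
def Qs (p : ℕ) (a : ℤ) (z : ℕ × ℤ × ℕ) : Prop :=
  ¬ p ∣ z.1 ∧ ¬ p ∣ z.2.2 ∧ (p : ℤ) ∣ ((z.1 : ℤ) * a + z.2.1) ^ 2 + (z.2.2 : ℤ) ^ 2

lemma per {p : ℕ} {a b : ℤ} (h : (p : ℤ) ∣ a - b) (j : ℤ) (k : ℤ) (m : ℤ) :
    (p : ℤ) ∣ (j * a + k) ^ 2 + m ↔ (p : ℤ) ∣ (j * b + k) ^ 2 + m := by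
  refine dvd_iff_dvd_of_dvd_sub ?_
  have : (j * a + k) ^ 2 + m - ((j * b + k) ^ 2 + m) = (a - b) * (j * (j * a + k + (j * b + k))) := by
    ring
  rw [this]
  exact h.mul_right _

theorem rectangles :
    ∃ c : ℝ, 0 < c ∧ ∃ Y₀ : ℝ, ∀ Y : ℝ, Y₀ ≤ Y → ∀ M : ℤ, Y ≤ M →
      ∀ J H K : ℕ, 1 ≤ J → 1 ≤ H → 1 ≤ K →
        (J : ℝ) * H * K ≤ c * Real.log Y * Real.log (Real.log Y) →
      ∃ x : ℤ, M < x ∧ (x : ℝ) ≤ M + Y ∧
        ∀ j : ℕ, 1 ≤ j → j ≤ J → ∀ k : ℤ, |k| ≤ H → ∀ b : ℕ, 1 ≤ b → b ≤ K →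
          ∃ p : ℕ, p.Prime ∧ (p : ℝ) ≤ Y ^ (1 / 10 : ℝ) ∧
            (p : ℤ) ∣ ((j : ℤ) * x + k) ^ 2 + (b : ℤ) ^ 2 ∧
            (p : ℤ) < ((j : ℤ) * x + k) ^ 2 + (b : ℤ) ^ 2 := by
  have hf : Irreducible f := f_irreducible
  have hd : 0 < f.natDegree := by rw [f_natDegree]; norm_num
  have hB : ∀ p : ℕ, p.Prime → 0 < p → rho p ≤ 2 := fun p hp _ => rho_le_two p hp
  obtain ⟨C, hM⟩ := mertens_lower f hf hd
  obtain ⟨c₂, hc₂, Z₀, hZ₀, hRL⟩ := rough_lower (Pool.Agent.H474R2.PG.rho f) 2 0 hB C hM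
  obtain ⟨c, hc, X₀, hcov⟩ := covering_poly (Pool.Agent.H474R2.PG.rho f) 2 0 (by norm_num) hB C hM
    c₂ Z₀ hc₂ hZ₀ hRL 17 (by norm_num)
  obtain ⟨C₁, L₀, hcl⟩ := Sg_close (Pool.Agent.H474R2.PG.rho f) 2 0 hB 17 (by omega) (1 / 100)
    (by norm_num) (by norm_num)
  set c' : ℝ := c * Real.exp (-C₁) / 30000 with hc'
  have hc'0 : 0 < c' := by positivity
  refine ⟨c', hc'0, ?_⟩
  -- largeness
  have t1 : Tendsto (fun Y : ℝ => Real.log Y) atTop atTop := Real.tendsto_log_atTop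
  have t2 : Tendsto (fun Y : ℝ => Real.log (Real.log Y)) atTop atTop := t1.comp t1
  have key : ∀ᶠ Y : ℝ in atTop, X₀ ≤ Y ∧ 1 ≤ Y ∧ (L₀ ≤ Real.log Y ∧ 1000 ≤ Real.log Y) ∧
      10 * Real.log 2 ≤ Real.log (Real.log Y) ∧
      c' * Real.log (Real.log Y) ≤ Real.log Y ∧
      (Real.log Y) ^ 2 ≤ Y / 4 ∧ (Real.log Y) ^ 2 ≤ Y ^ (1 / 10 : ℝ) := by
    have e1 : ∀ᶠ Y : ℝ in atTop, c' * Real.log (Real.log Y) ≤ Real.log Y := by
      have h1 : ∀ᶠ t : ℝ in atTop, c' * Real.log t ≤ t := by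
        have h2 := Real.isLittleO_log_id_atTop.def (show (0:ℝ) < 1 / c' by positivity)
        filter_upwards [h2, eventually_ge_atTop (1:ℝ)] with t ht ht1
        rw [Real.norm_eq_abs, abs_of_nonneg (Real.log_nonneg ht1), Real.norm_eq_abs] at ht
        simp only [id] at ht
        rw [abs_of_nonneg (by linarith), div_mul_eq_mul_div, one_mul, le_div_iff₀ hc'0] at ht
        linarith
      exact t1.eventually h1
    have e2 : ∀ᶠ Y : ℝ in atTop, (Real.log Y) ^ 2 ≤ Y / 4 := by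
      have h1 : (fun Y : ℝ => (Real.log Y) ^ (2:ℝ)) =o[atTop] (fun Y : ℝ => Y ^ (1 : ℝ)) :=
        isLittleO_log_rpow_rpow_atTop 2 (by norm_num)
      filter_upwards [h1.def (show (0:ℝ) < 1 / 4 by norm_num), eventually_ge_atTop (1:ℝ)]
        with Y hY hY1
      have hlog := Real.log_nonneg hY1
      rw [Real.norm_eq_abs, Real.norm_eq_abs, abs_of_nonneg (Real.rpow_nonneg hlog _),
        Real.rpow_one, abs_of_nonneg (by linarith), Real.rpow_two] at hY
      linarith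
    have e3 : ∀ᶠ Y : ℝ in atTop, (Real.log Y) ^ 2 ≤ Y ^ (1 / 10 : ℝ) := by
      have h1 : (fun Y : ℝ => (Real.log Y) ^ (2:ℝ)) =o[atTop] (fun Y : ℝ => Y ^ (1 / 10 : ℝ)) :=
        isLittleO_log_rpow_rpow_atTop 2 (by norm_num)
      filter_upwards [h1.def (show (0:ℝ) < 1 by norm_num), eventually_ge_atTop (1:ℝ)]
        with Y hY hY1
      have hlog := Real.log_nonneg hY1
      rw [Real.norm_eq_abs, Real.norm_eq_abs, abs_of_nonneg (Real.rpow_nonneg hlog _),
        abs_of_nonneg (Real.rpow_nonneg (by linarith) _), Real.rpow_two] at hY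
      linarith
    filter_upwards [eventually_ge_atTop X₀, eventually_ge_atTop (1:ℝ),
      t1.eventually_ge_atTop L₀, t1.eventually_ge_atTop (1000 : ℝ),
      t2.eventually_ge_atTop (10 * Real.log 2), e1, e2, e3] with Y a1 a2 a5 a7 a8 a10 a11 a12
    exact ⟨a1, a2, ⟨a5, a7⟩, a8, a10, a11, a12⟩
  obtain ⟨Y₀, hY₀⟩ := eventually_atTop.mp key
  refine ⟨Y₀, fun Y hY M hMY J H K hJ1 hH1 hK1 hJHK => ?_⟩
  obtain ⟨a1, a2, ⟨a5, a7⟩, a8, a10, a11, a12⟩ := hY₀ Y hY
  have hY0 : 0 < Y := by linarith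
  set L : ℝ := Real.log Y with hL
  set l : ℝ := Real.log L with hll
  have hLpos : 0 < L := by linarith
  have hYexp : Y = Real.exp L := (Real.exp_log hY0).symm
  have hYr : ∀ s : ℝ, Y ^ s = Real.exp (s * L) := by
    intro s
    rw [hYexp, ← Real.exp_mul, mul_comm]
  have hl0 : 0 < l := Real.log_pos (by linarith)
  have hcLl2 : c' * L * l ≤ L ^ 2 := by
    have : c' * L * l = L * (c' * l) := by ring
    rw [this, sq]
    exact mul_le_mul_of_nonneg_left a10 hLpos.le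
  have hJR : (1:ℝ) ≤ J := by exact_mod_cast hJ1
  have hHR : (1:ℝ) ≤ H := by exact_mod_cast hH1
  have hKR : (1:ℝ) ≤ K := by exact_mod_cast hK1
  have hP : (J : ℝ) * H * K ≤ L ^ 2 := hJHK.trans hcLl2
  have hJL : (J : ℝ) ≤ L ^ 2 := by
    refine le_trans ?_ hP
    have : (1:ℝ) ≤ (H:ℝ) * K := one_le_mul_of_one_le_of_one_le hHR hKR
    nlinarith
  have hHL : (H : ℝ) ≤ L ^ 2 := by
    refine le_trans ?_ hP
    have : (1:ℝ) ≤ (J:ℝ) * K := one_le_mul_of_one_le_of_one_le hJR hKR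
    nlinarith
  have hKL : (K : ℝ) ≤ L ^ 2 := by
    refine le_trans ?_ hP
    have : (1:ℝ) ≤ (J:ℝ) * H := one_le_mul_of_one_le_of_one_le hJR hHR
    nlinarith
  -- small primes
  set w : ℝ := 1 / 100 * L with hw
  have hw0 : 0 ≤ w := by positivity
  have hw' : w = L / 100 := by rw [hw]; ring
  set R : Finset (ℕ × ℤ × ℕ) :=
    Finset.Icc 1 J ×ˢ (Finset.Icc (-(H:ℤ)) (H:ℤ) ×ˢ Finset.Icc 1 K) with hR
  have hRmem : ∀ z : ℕ × ℤ × ℕ, z ∈ R ↔ (1 ≤ z.1 ∧ z.1 ≤ J) ∧ (-(H:ℤ) ≤ z.2.1 ∧ z.2.1 ≤ H) ∧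
      (1 ≤ z.2.2 ∧ z.2.2 ≤ K) := by
    intro z
    rw [hR, Finset.mem_product, Finset.mem_product, Finset.mem_Icc, Finset.mem_Icc,
      Finset.mem_Icc]
  obtain ⟨r, hr⟩ := class_choice Qs
    (fun p z => if p ∣ z.1 ∨ p ∣ z.2.2 then 0 else rho p) (PR w) (fun p hp => PR_prime hp) R
    (by
      intro p hp a b hab z
      unfold Qs
      rw [per hab]) (by
      intro p hp z hz
      by_cases h : p ∣ z.1 ∨ p ∣ z.2.2
      · rw [if_pos h, Finset.card_eq_zero, Finset.filter_eq_empty_iff]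
        intro a _ hq
        rcases h with h | h
        · exact hq.1 h
        · exact hq.2.1 h
      · rw [if_neg h]
        push Not at h
        rw [← roots p (PR_prime hp) z.1 z.2.2 z.2.1 h.1 h.2]
        congr 1
        refine Finset.filter_congr (fun a _ => ?_)
        unfold Qs
        exact ⟨fun hq => hq.2.2, fun hq => ⟨h.1, h.2, hq⟩⟩)
  set Rs : Finset (ℕ × ℤ × ℕ) := R.filter
    (fun z => Nat.gcd (Nat.gcd z.1 z.2.2) z.2.1.natAbs = 1 ∧ ∀ p ∈ PR w, ¬ Qs p r z) with hRs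
  set W : ℕ := WW w with hW
  have hW1 : 1 ≤ W := WW_pos w
  have hWle : (W : ℝ) ≤ Real.exp (L / 50) := by
    rw [hW, hw']
    exact WW_le hLpos.le
  have hWR : (0:ℝ) < W := by exact_mod_cast hW1
  -- survivors
  have hcard : (Rs.card : ℝ) ≤ c * L * l * Real.exp (-(Sg (Pool.Agent.H474R2.PG.rho f) (L ^ 17))) := by
    have h0 : (Rs.card : ℝ) ≤ ((R.filter (fun z => ∀ p ∈ PR w, ¬ Qs p r z)).card : ℝ) := by
      exact_mod_cast Finset.card_le_card (by
        intro z hz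
        rw [hRs, Finset.mem_filter] at hz
        rw [Finset.mem_filter]
        exact ⟨hz.1, hz.2.2⟩)
    set E : ℝ := Real.exp (-(Sg (Pool.Agent.H474R2.PG.rho f) w)) with hE
    have h1 : (Rs.card : ℝ) ≤ ∑ z ∈ R, E *
        (Real.exp (2 * ∑ p ∈ z.1.primeFactors, 1 / (p : ℝ)) *
          Real.exp (2 * ∑ p ∈ z.2.2.primeFactors, 1 / (p : ℝ))) := by
      refine (h0.trans hr).trans (Finset.sum_le_sum fun z hz => ?_)
      rw [hRmem] at hz
      exact weight rho_le_two w z.1 z.2.2 hz.1.1 hz.2.2.1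
    have h2 : ∑ z ∈ R, E *
        (Real.exp (2 * ∑ p ∈ z.1.primeFactors, 1 / (p : ℝ)) *
          Real.exp (2 * ∑ p ∈ z.2.2.primeFactors, 1 / (p : ℝ))) =
        E * ((∑ j ∈ Finset.Icc 1 J, Real.exp (2 * ∑ p ∈ j.primeFactors, 1 / (p : ℝ))) *
          ((2 * H + 1 : ℕ) * ∑ b ∈ Finset.Icc 1 K,
            Real.exp (2 * ∑ p ∈ b.primeFactors, 1 / (p : ℝ)))) := by
      rw [hR, Finset.sum_product, Finset.sum_mul, Finset.mul_sum]
      refine Finset.sum_congr rfl fun j _ => ?_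
      rw [Finset.sum_product]
      dsimp only
      rw [Finset.sum_const, Int.card_Icc, nsmul_eq_mul]
      have e : ((H:ℤ) + 1 - -(H:ℤ)).toNat = 2 * H + 1 := by omega
      rw [e, ← Finset.mul_sum, ← Finset.mul_sum]
      ring
    have h3 : ∑ j ∈ Finset.Icc 1 J, Real.exp (2 * ∑ p ∈ j.primeFactors, 1 / (p : ℝ)) ≤ 100 * J :=
      avg J
    have h4 : ∑ b ∈ Finset.Icc 1 K, Real.exp (2 * ∑ p ∈ b.primeFactors, 1 / (p : ℝ)) ≤ 100 * K :=
      avg K
    have h5 : (((2 * H + 1 : ℕ)) : ℝ) ≤ 3 * H := by push_cast; linarith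
    have hE0 : 0 < E := Real.exp_pos _
    have h6 : (Rs.card : ℝ) ≤ E * ((100 * J) * ((3 * H) * (100 * K))) := by
      rw [h2] at h1
      refine h1.trans (mul_le_mul_of_nonneg_left ?_ hE0.le)
      refine mul_le_mul h3 (mul_le_mul h5 h4 (Finset.sum_nonneg fun _ _ => (Real.exp_pos _).le)
        (by positivity)) (mul_nonneg (by positivity)
          (Finset.sum_nonneg fun _ _ => (Real.exp_pos _).le)) (by positivity)
    have h7 : E ≤ Real.exp C₁ * Real.exp (-(Sg (Pool.Agent.H474R2.PG.rho f) (L ^ 17))) := by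
      rw [hE, ← Real.exp_add]
      apply Real.exp_le_exp.mpr
      have := hcl L a5
      linarith
    have h8 : (0:ℝ) ≤ Real.exp (-(Sg (Pool.Agent.H474R2.PG.rho f) (L ^ 17))) := (Real.exp_pos _).le
    calc (Rs.card : ℝ) ≤ E * ((100 * J) * ((3 * H) * (100 * K))) := h6
      _ = (30000 * (J * H * K)) * E := by ring
      _ ≤ (30000 * (c' * L * l)) * (Real.exp C₁ *
            Real.exp (-(Sg (Pool.Agent.H474R2.PG.rho f) (L ^ 17)))) :=
          mul_le_mul (by linarith) h7 hE0.le (by positivity)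
      _ = c * L * l * Real.exp (-(Sg (Pool.Agent.H474R2.PG.rho f) (L ^ 17))) := by
          rw [hc']
          have : Real.exp (-C₁) * Real.exp C₁ = 1 := by rw [← Real.exp_add]; simp
          calc 30000 * (c * Real.exp (-C₁) / 30000 * L * l) * (Real.exp C₁ *
                Real.exp (-(Sg (Pool.Agent.H474R2.PG.rho f) (L ^ 17)))) =
                c * L * l * (Real.exp (-C₁) * Real.exp C₁) *
                Real.exp (-(Sg (Pool.Agent.H474R2.PG.rho f) (L ^ 17))) := by ring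
            _ = _ := by rw [this, mul_one]
  -- the set
  set B' : ℤ := M + ⌊Y / 2⌋ with hB'
  have hfl1 : Y / 2 - 1 < (⌊Y / 2⌋ : ℝ) := Int.sub_one_lt_floor _
  have hfl2 : (⌊Y / 2⌋ : ℝ) ≤ Y / 2 := Int.floor_le _
  have hY4 : 4 ≤ Y := by nlinarith
  have hMB : M ≤ B' := by
    rw [hB']
    have : (0:ℤ) ≤ ⌊Y / 2⌋ := Int.floor_nonneg.mpr (by linarith)
    linarith
  set 𝒜 : Finset ℤ := (Finset.Ioc M B').filter (fun a : ℤ => (W : ℤ) ∣ a - r) with h𝒜
  set N : ℝ := ((B' : ℝ) - M) / W with hN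
  have hBM : Y / 4 ≤ (B' : ℝ) - M := by
    rw [hB']
    push_cast
    linarith
  have hNge : Y ^ (1 / 2 : ℝ) ≤ N := by
    rw [hN, le_div_iff₀ hWR]
    refine le_trans ?_ hBM
    rw [hYr]
    calc Real.exp (1 / 2 * L) * W ≤ Real.exp (1 / 2 * L) * Real.exp (L / 50) :=
          mul_le_mul_of_nonneg_left hWle (Real.exp_pos _).le
      _ = Real.exp (26 / 50 * L) := by rw [← Real.exp_add]; congr 1; ring
      _ ≤ Y / 4 := by
          have h1 : Y = Real.exp (26 / 50 * L) * Real.exp (24 / 50 * L) := by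
            rw [← Real.exp_add, hYexp]; congr 1; ring
          have h2 : 4 ≤ Real.exp (24 / 50 * L) := by
            have := Real.add_one_le_exp (24 / 50 * L)
            linarith
          have h3 := Real.exp_pos (26 / 50 * L)
          have h4 := mul_le_mul_of_nonneg_left h2 h3.le
          rw [← h1] at h4
          linarith
  -- conclusion for a suitable `a`
  have hfin : ∀ a ∈ 𝒜, (∀ z ∈ Rs, ∃ p : ℕ, p.Prime ∧ (p : ℝ) ≤ Y ^ (1 / 10 : ℝ) ∧
      (p : ℤ) ∣ ((z.1 : ℤ) * a + z.2.1) ^ 2 + (z.2.2 : ℤ) ^ 2) → ∃ x : ℤ, M < x ∧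
      (x : ℝ) ≤ M + Y ∧
        ∀ j : ℕ, 1 ≤ j → j ≤ J → ∀ k : ℤ, |k| ≤ H → ∀ b : ℕ, 1 ≤ b → b ≤ K →
          ∃ p : ℕ, p.Prime ∧ (p : ℝ) ≤ Y ^ (1 / 10 : ℝ) ∧
            (p : ℤ) ∣ ((j : ℤ) * x + k) ^ 2 + (b : ℤ) ^ 2 ∧
            (p : ℤ) < ((j : ℤ) * x + k) ^ 2 + (b : ℤ) ^ 2 := by
    intro a ha hcovd
    rw [h𝒜, Finset.mem_filter, Finset.mem_Ioc] at ha
    obtain ⟨⟨ha1, ha2⟩, ha3⟩ := ha
    refine ⟨a, ha1, ?_, ?_⟩
    · have : (a : ℝ) ≤ (B' : ℝ) := by exact_mod_cast ha2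
      rw [hB'] at this
      push_cast at this
      linarith
    · intro j hj1 hjJ k hk b hb1 hbK
      have hk' := abs_le.mp hk
      have hzR : ((j, k, b) : ℕ × ℤ × ℕ) ∈ R := (hRmem _).2 ⟨⟨hj1, hjJ⟩, ⟨hk'.1, hk'.2⟩, ⟨hb1, hbK⟩⟩
      have hjR : (j : ℝ) ≤ L ^ 2 := le_trans (by exact_mod_cast hjJ) hJL
      have hex : ∃ p : ℕ, p.Prime ∧ (p : ℝ) ≤ Y ^ (1 / 10 : ℝ) ∧
          (p : ℤ) ∣ ((j : ℤ) * a + k) ^ 2 + (b : ℤ) ^ 2 := by
        by_cases hkR : ((j, k, b) : ℕ × ℤ × ℕ) ∈ Rs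
        · exact hcovd _ hkR
        · rw [hRs, Finset.mem_filter, not_and, not_and_or] at hkR
          rcases hkR hzR with hg | hg
          · obtain ⟨p, hp, hpd⟩ := Nat.exists_prime_and_dvd hg
            have d1 : p ∣ j := (hpd.trans (Nat.gcd_dvd_left _ _)).trans (Nat.gcd_dvd_left _ _)
            have d2 : p ∣ b := (hpd.trans (Nat.gcd_dvd_left _ _)).trans (Nat.gcd_dvd_right _ _)
            have d3 : (p : ℤ) ∣ k := Int.natCast_dvd.2 (hpd.trans (Nat.gcd_dvd_right _ _))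
            refine ⟨p, hp, ?_, ?_⟩
            · have h1 : (p : ℝ) ≤ j := by exact_mod_cast Nat.le_of_dvd (by omega) d1
              linarith
            · have d1' : (p : ℤ) ∣ (j : ℤ) := Int.natCast_dvd_natCast.2 d1
              have d2' : (p : ℤ) ∣ (b : ℤ) := Int.natCast_dvd_natCast.2 d2
              exact dvd_add (dvd_pow (dvd_add (d1'.mul_right _) d3) (by norm_num))
                (dvd_pow d2' (by norm_num))
          · push Not at hg
            obtain ⟨p, hp, hpd⟩ := hg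
            refine ⟨p, PR_prime hp, ?_, ?_⟩
            · have h2 := PR_le hw0 hp
              have h3 : w ≤ Y ^ (1 / 10 : ℝ) := by
                rw [hYr, hw]
                have := Real.add_one_le_exp (1 / 10 * L)
                linarith
              linarith
            · have h2 : (p : ℤ) ∣ a - r := by
                refine dvd_trans ?_ ha3
                have : p ∣ W := by
                  rw [hW]
                  exact Finset.dvd_prod_of_mem _ hp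
                exact_mod_cast this
              exact (per h2 _ _ _).2 hpd.2.2
      obtain ⟨p, hp, hpY, hpd⟩ := hex
      refine ⟨p, hp, hpY, hpd, ?_⟩
      have h0 : (Y : ℝ) < a := by
        have h2 : (M : ℝ) < a := by exact_mod_cast ha1
        linarith
      have h1 : Y / 2 ≤ ((j : ℝ) * a + k) := by
        have e1 : (-(H:ℝ)) ≤ k := by exact_mod_cast hk'.1
        have e2 : (1:ℝ) ≤ j := by exact_mod_cast hj1
        have e3 : (a:ℝ) ≤ (j:ℝ) * a := by nlinarith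
        linarith
      have h5 : (p : ℝ) < Y / 2 := by
        refine lt_of_le_of_lt hpY ?_
        rw [hYr]
        have e1 : Y = Real.exp (1 / 10 * L) * Real.exp (9 / 10 * L) := by
          rw [← Real.exp_add, hYexp]; congr 1; ring
        have e2 : 4 ≤ Real.exp (9 / 10 * L) := by
          have := Real.add_one_le_exp (9 / 10 * L)
          linarith
        have e3 := Real.exp_pos (1 / 10 * L)
        have e4 := mul_le_mul_of_nonneg_left e2 e3.le
        rw [← e1] at e4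
        linarith
      have h6 : (p : ℝ) < ((((j : ℤ) * a + k) ^ 2 + (b : ℤ) ^ 2 : ℤ) : ℝ) := by
        push_cast
        have e1 : (1:ℝ) ≤ (j : ℝ) * a + k := by linarith
        have e2 : (j : ℝ) * a + k ≤ ((j : ℝ) * a + k) ^ 2 := by nlinarith
        have e3 : (0:ℝ) ≤ (b:ℝ) ^ 2 := by positivity
        linarith
      exact_mod_cast h6
  have h𝒜ne : 𝒜.Nonempty := by
    have h1 := Pool.Agent.H256R2.SC.count_ap M B' hMB W hW1 r
    rw [← Finset.card_pos]
    have h2 : (1:ℝ) < N := by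
      refine lt_of_lt_of_le ?_ hNge
      rw [hYr]
      exact Real.one_lt_exp_iff.mpr (by linarith)
    have h3 := (abs_le.mp h1).1
    rw [← hN] at h3
    have h4 : (((Finset.Ioc M B').filter (fun a : ℤ => (W : ℤ) ∣ a - r)).card : ℝ) =
        (𝒜.card : ℝ) := by
      rw [h𝒜]
    rw [h4] at h3
    have : (0:ℝ) < (𝒜.card : ℝ) := by linarith
    exact_mod_cast this
  rcases Rs.eq_empty_or_nonempty with hemp | hne
  · obtain ⟨a, ha⟩ := h𝒜ne
    exact hfin a ha (fun k hk => by rw [hemp] at hk; exact absurd hk (Finset.notMem_empty k))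
  · have : Nonempty (↥Rs) := hne.to_subtype
    set hit : ℕ → ℤ → (↥Rs) → Prop := fun p a z =>
      (p : ℤ) ∣ ((z.1.1 : ℤ) * a + z.1.2.1) ^ 2 + (z.1.2.2 : ℤ) ^ 2 with hhit
    have hRs' : ∀ z : ↥Rs, ((1 ≤ z.1.1 ∧ z.1.1 ≤ J) ∧ (-(H:ℤ) ≤ z.1.2.1 ∧ z.1.2.1 ≤ H) ∧
      (1 ≤ z.1.2.2 ∧ z.1.2.2 ≤ K)) ∧ Nat.gcd (Nat.gcd z.1.1 z.1.2.2) z.1.2.1.natAbs = 1 := by
      intro z
      have h1 := Finset.mem_filter.mp z.2
      exact ⟨(hRmem _).1 h1.1, h1.2.1⟩
    have hL17 : L ^ 2 < L ^ 17 := pow_lt_pow_right₀ (by linarith) (by norm_num)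
    obtain ⟨a, ha, hac⟩ := hcov Y a1 (↥Rs) (by rw [Fintype.card_coe]; exact hcard) hit
      (by
        intro p hp hpA _ a z z' h1 h2
        obtain ⟨⟨⟨g1, g2⟩, ⟨g3, g4⟩, ⟨g5, g6⟩⟩, g7⟩ := hRs' z
        obtain ⟨⟨⟨g1', g2'⟩, ⟨g3', g4'⟩, ⟨g5', g6'⟩⟩, g7'⟩ := hRs' z'
        have hD1 : (1:ℝ) ≤ L ^ 2 := by nlinarith
        have hpD : 41 * (L ^ 2) ^ 8 < (p : ℝ) := by
          refine lt_of_le_of_lt ?_ hpA
          have e1 : 41 * (L ^ 2) ^ 8 = 41 * L ^ 16 := by ring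
          have e2 : L ^ 17 = L * L ^ 16 := by ring
          rw [e1, e2]
          have : (0:ℝ) ≤ L ^ 16 := by positivity
          nlinarith
        have hkb : ∀ k : ℤ, -(H:ℤ) ≤ k → k ≤ H → |(k : ℝ)| ≤ L ^ 2 := by
          intro k h h'
          rw [abs_le]
          have e1 : (-(H:ℝ)) ≤ k := by exact_mod_cast h
          have e2 : (k:ℝ) ≤ H := by exact_mod_cast h'
          constructor <;> linarith
        have hcc := no_coll p hp (L ^ 2) hD1 hpD a z.1.1 z'.1.1 z.1.2.2 z'.1.2.2 z.1.2.1 z'.1.2.1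
          g1 g1' g5 g5' (le_trans (by exact_mod_cast g2) hJL) (le_trans (by exact_mod_cast g2') hJL)
          (le_trans (by exact_mod_cast g6) hKL) (le_trans (by exact_mod_cast g6') hKL)
          (hkb _ g3 g4) (hkb _ g3' g4') g7 g7' h1 h2
        exact Subtype.ext (Prod.ext hcc.1 (Prod.ext hcc.2.1 hcc.2.2)))
      𝒜 N (Real.exp (1 / 10 * L)) hNge (Real.exp_pos _).le (by rw [hYr])
      (by
        intro T s hTX hT
        have hTp : ∀ p ∈ T, p.Prime ∧ ¬ p ∣ W := fun p hp => ⟨(hT p hp).1,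
          PR_not_dvd hw0 (hT p hp).1 (by
            have e1 := (hT p hp).2
            have e2 : L ≤ L ^ 17 := le_self_pow₀ (by linarith) (by omega)
            rw [hw]
            linarith)⟩
        have h1 := count_gen (fun p a => hit p a (s p)) (Pool.Agent.H474R2.PG.rho f) M B' hMB W hW1
          r T hTp
          (by
            intro p hp a b hab
            exact per hab _ _ _)
          (by
            intro p hp
            obtain ⟨⟨⟨g1, g2⟩, _, ⟨g5, g6⟩⟩, _⟩ := hRs' (s p)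
            have e1 := (hT p hp).2
            have hnd : ∀ n : ℕ, 1 ≤ n → (n : ℝ) ≤ L ^ 2 → ¬ p ∣ n := by
              intro n hn hnL hdvd
              have e2 : (p : ℝ) ≤ n := by exact_mod_cast Nat.le_of_dvd (by omega) hdvd
              linarith
            refine Eq.trans ?_ (roots p (hT p hp).1 (s p).1.1 (s p).1.2.2 (s p).1.2.1
              (hnd _ g1 (le_trans (by exact_mod_cast g2) hJL))
              (hnd _ g5 (le_trans (by exact_mod_cast g6) hKL)))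
            congr!)
        have h2 : 𝒜.filter (fun a => ∀ p ∈ T, hit p a (s p)) =
            (Finset.Ioc M B').filter (fun a : ℤ => (W : ℤ) ∣ a - r ∧
              ∀ p ∈ T, hit p a (s p)) := by
          rw [h𝒜, Finset.filter_filter]
        rw [hYr] at hTX
        have h3 := h1.trans (err_le f 2 0 17 (by norm_num) (by omega) hB L (by linarith)
          (by push_cast; linarith) (by push_cast; exact a8) T hT hTX)
        have h5 : |(((𝒜.filter (fun a => ∀ p ∈ T, hit p a (s p))).card : ℕ) : ℝ) -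
            N * ∏ p ∈ T, (Pool.Agent.H474R2.PG.rho f p : ℝ) / (p : ℝ)| ≤
            Real.exp (1 / 10 * L) := by
          rw [h2]
          refine le_trans (le_of_eq ?_) h3
          congr!
        refine le_trans (le_of_eq ?_) h5
        congr!)
    exact hfin a ha (fun z hz => by
      obtain ⟨p, hp, _, hpY, hpd⟩ := hac ⟨z, hz⟩
      exact ⟨p, hp, hpY, hpd⟩)

end Pool.Agent.H618R2.GR
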