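import Pool.Agent.H618R2.GR.Main

set_option autoImplicit false

/-! # Walks on Gaussian primes close to the real axis (helper618) -/

namespace Pool.Agent.H618R2.GR

open Filter

lemma int_not_unit (q : ℤ) (hq : 2 ≤ |q|) : ¬ IsUnit ((q : ℤ) : GaussianInt) := by
  rw [← Zsqrtd.norm_eq_one_iff, Zsqrtd.norm_intCast, Int.natAbs_mul]
  intro h
  have h1 : 2 ≤ q.natAbs := by
    rcases abs_cases q with h2 | h2 <;> omega
  nlinarith

lemma A1 (a b q : ℤ) (ha : a ≠ 0) (hb : b ≠ 0) (hq : 2 ≤ |q|) (h1 : q ∣ a) (h2 : q ∣ b) :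
    ¬ Irreducible (⟨a, b⟩ : GaussianInt) := by
  obtain ⟨a', rfl⟩ := h1
  obtain ⟨b', rfl⟩ := h2
  intro h
  have e : (⟨q * a', q * b'⟩ : GaussianInt) = ((q : ℤ) : GaussianInt) * ⟨a', b'⟩ := by
    ext <;> simp
  rcases h.isUnit_or_isUnit e with hu | hu
  · exact int_not_unit q hq hu
  · rw [← Zsqrtd.norm_eq_one_iff, Zsqrtd.norm_def] at hu
    have ha' : a' ≠ 0 := by rintro rfl; simp at ha
    have hb' : b' ≠ 0 := by rintro rfl; simp at hb
    have h3 : 1 ≤ a' * a' := by
      have : 0 < a' * a' := mul_self_pos.mpr ha'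
      omega
    have h4 : 1 ≤ b' * b' := by
      have : 0 < b' * b' := mul_self_pos.mpr hb'
      omega
    have h5 : a' * a' - -1 * b' * b' = a' * a' + b' * b' := by ring
    simp only [h5] at hu
    omega

lemma A2 (a b : ℤ) (ha : a ≠ 0) (hb : b ≠ 0) (p : ℕ) (hp : p.Prime)
    (hpd : (p : ℤ) ∣ a ^ 2 + b ^ 2) (hlt : (p : ℤ) < a ^ 2 + b ^ 2) :
    ¬ Prime (⟨a, b⟩ : GaussianInt) := by
  intro hz
  obtain ⟨m, hm⟩ := hpd
  have hp2 : (2:ℤ) ≤ p := by exact_mod_cast hp.two_le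
  have hm2 : 2 ≤ m := by
    by_contra hcon
    have : m ≤ 1 := by omega
    nlinarith
  have e : (⟨a, b⟩ : GaussianInt) * ⟨a, -b⟩ =
      ((p : ℤ) : GaussianInt) * ((m : ℤ) : GaussianInt) := by
    have e0 := Zsqrtd.norm_eq_mul_conj (⟨a, b⟩ : GaussianInt)
    have e1 : Zsqrtd.norm (⟨a, b⟩ : GaussianInt) = p * m := by
      rw [Zsqrtd.norm_def, ← hm]
      ring
    rw [e1, Zsqrtd.star_mk] at e0
    rw [← e0, Int.cast_mul]
  have hd : (⟨a, b⟩ : GaussianInt) ∣ ((p : ℤ) : GaussianInt) * ((m : ℤ) : GaussianInt) :=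
    ⟨_, e.symm⟩
  have hz0 : (⟨a, b⟩ : GaussianInt) ≠ 0 := hz.ne_zero
  rcases hz.dvd_or_dvd hd with ⟨w, hw⟩ | ⟨w, hw⟩
  · have e2 : (⟨a, -b⟩ : GaussianInt) = ((m:ℤ) : GaussianInt) * w := by
      apply mul_left_cancel₀ hz0
      rw [e, hw]; ring
    have h3 : (((m:ℤ)) : GaussianInt) ∣ (⟨a, -b⟩ : GaussianInt) := ⟨w, e2⟩
    rw [Zsqrtd.intCast_dvd] at h3
    exact A1 a b m ha hb (by rw [abs_of_nonneg (by linarith)]; exact hm2) h3.1
      (by simpa using h3.2) hz.irreducible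
  · have e2 : (⟨a, -b⟩ : GaussianInt) = ((p:ℤ) : GaussianInt) * w := by
      apply mul_left_cancel₀ hz0
      rw [e, hw]; ring
    have h3 : (((p:ℤ)) : GaussianInt) ∣ (⟨a, -b⟩ : GaussianInt) := ⟨w, e2⟩
    rw [Zsqrtd.intCast_dvd] at h3
    exact A1 a b p ha hb (by rw [abs_of_nonneg (by linarith)]; exact hp2) h3.1
      (by simpa using h3.2) hz.irreducible

lemma A3 (i t : ℤ) (hi : 2 ≤ i) (ht : 2 ≤ t) : ¬ Prime (⟨i * t, 0⟩ : GaussianInt) := by
  intro hz
  have e : (⟨i * t, 0⟩ : GaussianInt) = ((i : ℤ) : GaussianInt) * ((t : ℤ) : GaussianInt) := by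
    ext <;> simp
  rcases hz.irreducible.isUnit_or_isUnit e with hu | hu
  · exact int_not_unit i (by rw [abs_of_nonneg (by linarith)]; exact hi) hu
  · exact int_not_unit t (by rw [abs_of_nonneg (by linarith)]; exact ht) hu

theorem walk_up (B : ℝ) (hB : 0 < B) : ∃ c : ℝ, 0 < c ∧ ∀ R : ℝ, ∀ z : ℕ → GaussianInt,
    (∀ n, Prime (z n)) → (∀ n, |((z (n+1)).re : ℝ) - (z n).re| ≤ B) →
    (∀ n, R < |((z n).re : ℝ)| → |((z n).im : ℝ)| ≤ c * Real.log |((z n).re:ℝ)| *
      Real.log (Real.log |((z n).re:ℝ)|)) →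
    ∃ S : ℝ, ∀ n, ((z n).re : ℝ) ≤ S := by
  obtain ⟨c, hc, Y₀, h⟩ := rectangles
  obtain ⟨k, hk⟩ : ∃ k : ℕ, k = ⌈B⌉₊ := ⟨_, rfl⟩
  have hkB : B ≤ k := by rw [hk]; exact Nat.le_ceil B
  obtain ⟨F, hF⟩ : ∃ F : ℕ, F = (k + 1).factorial := ⟨_, rfl⟩
  have hF1 : 1 ≤ F := by rw [hF]; exact Nat.factorial_pos _
  obtain ⟨H, hH⟩ : ∃ H : ℕ, H = F + k + 2 := ⟨_, rfl⟩
  have hH1 : 1 ≤ H := by omega
  have hHR : (1:ℝ) ≤ H := by exact_mod_cast hH1
  refine ⟨c / (4 * H), by positivity, fun R z hz hstep hreg => ?_⟩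
  have t1 : Tendsto (fun Y : ℝ => Real.log Y) atTop atTop := Real.tendsto_log_atTop
  have t2 : Tendsto (fun Y : ℝ => Real.log (Real.log Y)) atTop atTop := t1.comp t1
  have ev : ∀ᶠ Y : ℝ in atTop, Y₀ ≤ Y ∧ 2 * (H:ℝ) + 100 + 10 * k ≤ Y ∧
      |R| + H + |((z 0).re:ℝ)| + 1 ≤ Y ∧ H / c ≤ Real.log Y ∧ 3 ≤ Real.log Y ∧
      1 ≤ Real.log (Real.log Y) := by
    filter_upwards [eventually_ge_atTop Y₀, eventually_ge_atTop (2 * (H:ℝ) + 100 + 10 * k),
      eventually_ge_atTop (|R| + H + |((z 0).re:ℝ)| + 1), t1.eventually_ge_atTop (H / c),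
      t1.eventually_ge_atTop 3, t2.eventually_ge_atTop 1] with Y a b c d e f
    exact ⟨a, b, c, d, e, f⟩
  obtain ⟨Y, hY0, hY1, hY2, hY3, hY4, hY5⟩ := ev.exists
  have hlog0 : 0 < Real.log Y := by linarith
  have hll0 : 0 < Real.log (Real.log Y) := by linarith
  have hkR : (0:ℝ) ≤ k := Nat.cast_nonneg k
  have hcH : (H : ℝ) ≤ c * Real.log Y * Real.log (Real.log Y) := by
    rw [div_le_iff₀ hc] at hY3
    have h1 : Real.log Y * c ≤ (Real.log Y * c) * Real.log (Real.log Y) :=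
      le_mul_of_one_le_right (by positivity) hY5
    linarith
  obtain ⟨K, hK⟩ : ∃ K : ℕ, K = ⌊c * Real.log Y * Real.log (Real.log Y) / H⌋₊ := ⟨_, rfl⟩
  have hq1 : 1 ≤ c * Real.log Y * Real.log (Real.log Y) / H := by
    rw [one_le_div (by linarith)]; exact hcH
  have hK1 : 1 ≤ K := by
    rw [hK]; exact (Nat.one_le_floor_iff _).mpr hq1
  have hKle : (K:ℝ) ≤ c * Real.log Y * Real.log (Real.log Y) / H := by
    rw [hK]; exact Nat.floor_le (by linarith)
  obtain ⟨x, hx1, hx2, hx⟩ := h Y hY0 ⌈Y⌉ (Int.le_ceil Y) 1 H K le_rfl hH1 hK1 (by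
    rw [le_div_iff₀ (by linarith)] at hKle
    push_cast
    linarith)
  have hxY : Y < x := by
    have h1 : (⌈Y⌉ : ℝ) < x := by exact_mod_cast hx1
    have := Int.le_ceil Y
    linarith
  have hxY2 : (x : ℝ) ≤ 2 * Y + 1 := by
    have := Int.ceil_lt_add_one Y
    linarith
  obtain ⟨n0, hn0⟩ : ∃ n0 : ℤ, n0 = (x - H) + (F - (x - H) % F) := ⟨_, rfl⟩
  have hFZ : (0:ℤ) < F := by exact_mod_cast hF1
  have hmod1 := Int.emod_nonneg (x - H) hFZ.ne'
  have hmod2 := Int.emod_lt_of_pos (x - H) hFZ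
  have hn01 : x - H < n0 := by omega
  have hn02 : n0 ≤ x - H + F := by omega
  have hFn : (F : ℤ) ∣ n0 := by
    have h1 : (F : ℤ) ∣ (x - H) - (x - H) % F := Int.dvd_self_sub_emod
    have h2 : n0 = ((x - H) - (x - H) % F) + F := by rw [hn0]; ring
    rw [h2]
    exact dvd_add h1 (dvd_refl _)
  have hHZ : (H : ℤ) = F + k + 2 := by rw [hH]; push_cast; ring
  have hn01R : (x : ℝ) - H < n0 := by exact_mod_cast hn01
  have blk : ∀ n, ¬ (n0 + 2 ≤ (z n).re ∧ (z n).re ≤ n0 + k + 1) := by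
    intro n hn
    obtain ⟨hb1, hb2⟩ := hn
    obtain ⟨a, ha⟩ : ∃ a, a = (z n).re := ⟨_, rfl⟩
    obtain ⟨b, hb⟩ : ∃ b, b = (z n).im := ⟨_, rfl⟩
    have hzn : z n = ⟨a, b⟩ := by rw [ha, hb]
    rw [← ha] at hb1 hb2
    have haR : (n0 : ℝ) + 2 ≤ a := by exact_mod_cast hb1
    have haY : Y - H < a := by linarith
    have ha0 : (0:ℝ) < a := by linarith
    have hprime := hz n
    rw [hzn] at hprime
    by_cases hb0 : b = 0
    · have hi2 : 2 ≤ a - n0 := by omega
      have hi3 : a - n0 ≤ k + 1 := by omega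
      obtain ⟨i, hi⟩ : ∃ i : ℕ, (i : ℤ) = a - n0 := ⟨(a - n0).toNat, by omega⟩
      have hiF : i ∣ F := by
        rw [hF]
        exact Nat.dvd_factorial (by omega) (by omega)
      have h1 : (i : ℤ) ∣ n0 := (Int.natCast_dvd_natCast.2 hiF).trans hFn
      have h2 : (i : ℤ) ∣ a := by
        have : a = n0 + i := by omega
        rw [this]
        exact dvd_add h1 (dvd_refl _)
      obtain ⟨t, ht⟩ := h2
      have hikR : (i : ℝ) ≤ k + 1 := by
        have : (i : ℤ) ≤ k + 1 := by omega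
        exact_mod_cast this
      have hi0 : (2:ℝ) ≤ i := by
        have : (2 : ℤ) ≤ i := by omega
        exact_mod_cast this
      have ht2 : 2 ≤ t := by
        by_contra hcon
        have h3 : t ≤ 1 := by omega
        have h4 : (t:ℝ) ≤ 1 := by exact_mod_cast h3
        have h5 : (a : ℝ) = i * t := by exact_mod_cast ht
        nlinarith
      rw [hb0, ht] at hprime
      exact A3 i t (by omega) ht2 hprime
    · have habs : |(a:ℝ)| = a := abs_of_pos ha0
      have hR : R < |((z n).re : ℝ)| := by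
        rw [← ha, habs]
        have h1 := le_abs_self R
        have h2 := abs_nonneg ((z 0).re : ℝ)
        linarith
      have him := hreg n hR
      rw [← ha, ← hb, habs] at him
      have haU : (a : ℝ) ≤ Y ^ 2 := by
        have h1 : (a : ℝ) ≤ n0 + k + 1 := by exact_mod_cast hb2
        have h2 : (n0 : ℝ) ≤ x - H + F := by exact_mod_cast hn02
        have h3 : (H : ℝ) = F + k + 2 := by exact_mod_cast hHZ
        have h4 : (a : ℝ) ≤ 2 * Y + 1 := by linarith
        nlinarith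
      have haL : Real.log a ≤ 2 * Real.log Y := by
        have h1 := Real.log_le_log ha0 haU
        rwa [Real.log_pow] at h1
      have haY2 : Y / 2 ≤ a := by linarith
      have hY00 : 0 < Y := by linarith
      have haL1 : 1 ≤ Real.log a := by
        have h1 := Real.log_le_log (by positivity) haY2
        rw [Real.log_div hY00.ne' (by norm_num)] at h1
        have h2 := Real.log_two_lt_d9
        linarith
      have haLL : Real.log (Real.log a) ≤ 2 * Real.log (Real.log Y) := by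
        have h1 := Real.log_le_log (by linarith) haL
        rw [Real.log_mul (by norm_num) hlog0.ne'] at h1
        have h2 := Real.log_two_lt_d9
        linarith
      have him2 : |(b:ℝ)| ≤ c * Real.log Y * Real.log (Real.log Y) / H := by
        refine him.trans ?_
        have h0 : (0:ℝ) ≤ c / (4 * H) := by positivity
        have h1 : Real.log a * Real.log (Real.log a) ≤
            (2 * Real.log Y) * (2 * Real.log (Real.log Y)) :=
          mul_le_mul haL haLL (Real.log_nonneg haL1) (by positivity)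
        calc c / (4 * H) * Real.log a * Real.log (Real.log a)
            = c / (4 * H) * (Real.log a * Real.log (Real.log a)) := by ring
          _ ≤ c / (4 * H) * ((2 * Real.log Y) * (2 * Real.log (Real.log Y))) :=
              mul_le_mul_of_nonneg_left h1 h0
          _ = c * Real.log Y * Real.log (Real.log Y) / H := by
              field_simp
              ring
      have hbK : b.natAbs ≤ K := by
        rw [hK]
        apply Nat.le_floor
        rw [Nat.cast_natAbs, Int.cast_abs]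
        exact him2
      obtain ⟨p, hp, _, hpd, hlt⟩ := hx 1 le_rfl le_rfl (a - x) (by
        rw [abs_le]
        constructor <;> omega) b.natAbs (by omega) hbK
      have e1 : (((1:ℕ) : ℤ) * x + (a - x)) ^ 2 + ((b.natAbs : ℕ) : ℤ) ^ 2 = a ^ 2 + b ^ 2 := by
        rw [Int.natCast_natAbs, sq_abs]
        push_cast
        ring
      rw [e1] at hpd hlt
      have ha00 : a ≠ 0 := by
        rintro rfl
        simp at ha0
      exact A2 a b ha00 hb0 p hp hpd hlt hprime
  have main : ∀ n, (z n).re ≤ n0 + 1 := by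
    intro n
    induction n with
    | zero =>
      have h1 := le_abs_self ((z 0).re : ℝ)
      have h2 := abs_nonneg R
      have h3 : ((z 0).re : ℝ) ≤ n0 := by linarith
      have h4 : (z 0).re ≤ n0 := by exact_mod_cast h3
      omega
    | succ n ih =>
      have h1 := (abs_le.mp (hstep n)).2
      have h2 : ((z (n+1)).re : ℝ) ≤ (z n).re + k := by linarith
      have h3 : (z (n+1)).re ≤ (z n).re + k := by exact_mod_cast h2
      have h4 := blk (n+1)
      omega
  exact ⟨n0 + 1, fun n => by exact_mod_cast main n⟩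

end Pool.Agent.H618R2.GR
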